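import Pool.Agent.Lib.MP_9cddd8_gt.Inst

open MeasureTheory

namespace Pool.Agent.Variants.MP_9cddd8_gt.TangentChords

private theorem chord {K : Set (EuclideanSpace ℝ (Fin 2))} (hc : IsCompact K) (hv : Convex ℝ K)
    (hb : Metric.closedBall (0 : EuclideanSpace ℝ (Fin 2)) 1 ⊆ interior K)
    {e : EuclideanSpace ℝ (Fin 2)} (he : ‖e‖ = 1) :
    Measure.hausdorffMeasure 1 (K ∩ {x | inner ℝ x e = (1 : ℝ)}) =
        ENNReal.ofReal (Metric.diam (K ∩ {x | inner ℝ x e = (1 : ℝ)})) ∧
      volume {t : ℝ | e + t • (!₂[-e 1, e 0] : EuclideanSpace ℝ (Fin 2)) ∈ K} =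
        ENNReal.ofReal (Metric.diam (K ∩ {x | inner ℝ x e = (1 : ℝ)})) ∧
      0 < Metric.diam (K ∩ {x | inner ℝ x e = (1 : ℝ)}) := by
  set u : EuclideanSpace ℝ (Fin 2) := !₂[-e 1, e 0] with hu
  have he2 : e 0 ^ 2 + e 1 ^ 2 = 1 := by
    have h := EuclideanSpace.real_norm_sq_eq e
    rw [he, Fin.sum_univ_two] at h
    linarith
  have hu1 : ‖u‖ = 1 := by
    have h := EuclideanSpace.real_norm_sq_eq u
    rw [Fin.sum_univ_two] at h
    have h2 : ‖u‖ ^ 2 = 1 := by rw [h]; simp [hu]; linarith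
    nlinarith [norm_nonneg u]
  let φ : ℝ → EuclideanSpace ℝ (Fin 2) := fun t => e + t • u
  have hφ : Isometry φ := Isometry.of_dist_eq fun s t => by
    simp only [φ, dist_eq_norm, add_sub_add_left_eq_sub, ← sub_smul, norm_smul, hu1, mul_one]
  set S : Set ℝ := {t | e + t • u ∈ K} with hS
  have him : K ∩ {x | inner ℝ x e = (1 : ℝ)} = φ '' S := by
    ext x
    constructor
    · rintro ⟨hx, hi⟩
      have hi' : x 0 * e 0 + x 1 * e 1 = 1 := by
        have : inner ℝ x e = (1 : ℝ) := hi
        simp only [PiLp.inner_apply, Fin.sum_univ_two, RCLike.inner_apply, conj_trivial] at this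
        linarith
      have hx' : φ (x 1 * e 0 - x 0 * e 1) = x := by
        ext i
        fin_cases i
        · simp [φ, hu]
          linear_combination (-e 0) * hi' + x 0 * he2
        · simp [φ, hu]
          linear_combination (-e 1) * hi' + x 1 * he2
      exact ⟨_, by simpa [hS, φ] using (show φ _ ∈ K from hx'.symm ▸ hx), hx'⟩
    · rintro ⟨t, ht, rfl⟩
      refine ⟨ht, ?_⟩
      show inner ℝ (φ t) e = (1 : ℝ)
      simp only [PiLp.inner_apply, Fin.sum_univ_two, RCLike.inner_apply, conj_trivial]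
      simp [φ, hu]
      linear_combination he2
  have hSc : IsCompact S := hφ.isClosedEmbedding.isCompact_preimage hc
  have hSv : Convex ℝ S := by
    intro s hs t ht a b ha hb' hab
    have h := hv hs ht ha hb' hab
    show e + (a • s + b • t) • u ∈ K
    convert h using 1
    have : e = (a + b) • e := by rw [hab, one_smul]
    nth_rewrite 1 [this]
    simp only [smul_eq_mul, add_smul, smul_add, mul_smul]
    abel
  have h0 : S ∈ nhds (0 : ℝ) := by
    have : K ∈ nhds (φ 0) := by
      rw [← mem_interior_iff_mem_nhds]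
      exact hb (by simp [φ, he])
    exact hφ.continuous.continuousAt.preimage_mem_nhds this
  have hI := eq_Icc_of_connected_compact ⟨⟨0, mem_of_mem_nhds h0⟩, hSv.isPreconnected⟩ hSc
  have hlt : sInf S < sSup S := by
    rw [hI, ← mem_interior_iff_mem_nhds, interior_Icc] at h0
    exact h0.1.trans h0.2
  have hd : Metric.diam S = sSup S - sInf S := by
    conv_lhs => rw [hI]
    exact Real.diam_Icc hlt.le
  have hvol : volume S = ENNReal.ofReal (Metric.diam S) := by
    rw [hd]
    conv_lhs => rw [hI]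
    exact Real.volume_Icc
  rw [him, hφ.diam_image, hφ.hausdorffMeasure_image (Or.inl zero_le_one), hausdorffMeasure_real]
  exact ⟨hvol, hvol, by linarith⟩

/-- Two different planar convex bodies containing the closed unit disc in their interiors, with
chords of equal, positive and finite length on every line tangent to the unit circle; the length
is taken both as one-dimensional Hausdorff measure of the chord and as Lebesgue measure of the
parameter set of the unit-speed parametrisation of the line. -/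
theorem result :
    ∃ K₁ K₂ : ConvexBody (EuclideanSpace ℝ (Fin 2)),
      (K₁ : Set (EuclideanSpace ℝ (Fin 2))) ≠ K₂ ∧
      Metric.closedBall 0 1 ⊆ interior (K₁ : Set (EuclideanSpace ℝ (Fin 2))) ∧
      Metric.closedBall 0 1 ⊆ interior (K₂ : Set (EuclideanSpace ℝ (Fin 2))) ∧
      ∀ e : EuclideanSpace ℝ (Fin 2), ‖e‖ = 1 → ∃ L : ℝ, 0 < L ∧
        Measure.hausdorffMeasure 1
          ((K₁ : Set (EuclideanSpace ℝ (Fin 2))) ∩ {x | inner ℝ x e = (1 : ℝ)}) =
            ENNReal.ofReal L ∧
        Measure.hausdorffMeasure 1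
          ((K₂ : Set (EuclideanSpace ℝ (Fin 2))) ∩ {x | inner ℝ x e = (1 : ℝ)}) =
            ENNReal.ofReal L ∧
        volume {t : ℝ | e + t • (!₂[-e 1, e 0] : EuclideanSpace ℝ (Fin 2)) ∈ K₁} =
          ENNReal.ofReal L ∧
        volume {t : ℝ | e + t • (!₂[-e 1, e 0] : EuclideanSpace ℝ (Fin 2)) ∈ K₂} =
          ENNReal.ofReal L := by
  obtain ⟨K₁, K₂, c1, v1, c2, v2, b1, b2, h, hne⟩ := Pool.Agent.Lib.MP_9cddd8_gt.barker_larman
  refine ⟨⟨K₁, v1, c1, ⟨0, interior_subset (b1 (by simp))⟩⟩,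
    ⟨K₂, v2, c2, ⟨0, interior_subset (b2 (by simp))⟩⟩, hne, b1, b2, fun e he => ?_⟩
  obtain ⟨p1, p2, p3⟩ := chord c1 v1 b1 he
  obtain ⟨q1, q2, -⟩ := chord c2 v2 b2 he
  rw [← h e he] at q1 q2
  exact ⟨_, p3, p1, q1, p2, q2⟩

end Pool.Agent.Variants.MP_9cddd8_gt.TangentChords
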